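import Pool.Agent.TH653.Sing.GorAbove

set_option autoImplicit false

/-!
# The class of flag complexes with vanishing above the middle
-/

namespace Pool.Agent.TH653.Sing

open Pool.Agent.W907.SG Pool.Agent.W907.SM

/-- The class `K_n` of (1-skeleta of) finite flag complexes: it contains the order complexes of graded posets of
length `n` which are Gorenstein* over `F_2` (for example the barycentric subdivisions of the triangulated
`(n-1)`-spheres) and it is closed under passing to full subcomplexes, deleting edges, subdividing edges, suspensions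
(which raise `n` by one), and, if `n = 2 m + 2`, it contains all the finite flag complexes whose vertex links lie in
`K_{2 m + 1}`. -/
inductive Cls : ℕ → ∀ {V : Type}, SimpleGraph V → Prop
  | gor {n : ℕ} {V : Type} [Fintype V] [LinearOrder V] (r : V → V → Prop) (rk : V → Fin n) :
      GorStar n r rk → Cls n (Pool.Agent.W907.SM.cmp r)
  | full {n : ℕ} {V : Type} (G : SimpleGraph V) (A : Set V) : Cls n G → Cls n (G.induce A)
  | del {n : ℕ} {V : Type} (G : SimpleGraph V) (s t : V) : Cls n G → Cls n (G.deleteEdges {s(s, t)})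
  | sub {n : ℕ} {V : Type} (G : SimpleGraph V) (s t : V) : G.Adj s t → Cls n G → Cls n (esub G s t)
  | susp {n : ℕ} {V : Type} (G : SimpleGraph V) : Cls n G → Cls (n + 1) (susp G)
  | loc {m : ℕ} {V : Type} [Finite V] (G : SimpleGraph V) :
      (∀ v, Cls (2 * m + 1) (G.induce (G.neighborSet v))) → Cls (2 * m + 2) G
  | iso {n : ℕ} {V U : Type} (G : SimpleGraph V) (H : SimpleGraph U) : Nonempty (G ≃g H) → Cls n G → Cls n H

theorem Q_full {n : ℕ} {V : Type} (G : SimpleGraph V) (B : Set V) (hQ : Q n G) : Q n (G.induce B) := by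
  classical
  obtain ⟨hf, hQ⟩ := hQ
  refine ⟨inferInstance, fun T A i hT hA hn => ?_⟩
  refine (LVnest liso G B A (Subtype.val '' A) ?_ i).mpr ?_
  · intro x
    constructor
    · rintro ⟨a, ha, rfl⟩
      exact ⟨a.2, ha⟩
    · rintro ⟨hx, h⟩
      exact ⟨⟨x, hx⟩, h, rfl⟩
  · refine hQ (T.map ⟨Subtype.val, Subtype.val_injective⟩) _ i ?_ ?_ (by rw [Finset.card_map]; exact hn)
    · intro a ha b hb hab
      rw [Finset.mem_map] at ha hb
      obtain ⟨a', ha', rfl⟩ := ha
      obtain ⟨b', hb', rfl⟩ := hb
      exact hT a' ha' b' hb' (fun h => hab (by rw [h]))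
    · rintro _ ⟨a, ha, rfl⟩ t ht
      rw [Finset.mem_map] at ht
      obtain ⟨t', ht', rfl⟩ := ht
      exact hA a ha t' ht'

theorem Q_del {n : ℕ} {V : Type} (G : SimpleGraph V) (s t : V) (hQ : Q n G) :
    Q n (G.deleteEdges {s(s, t)}) := by
  classical
  by_cases hst : G.Adj s t
  · have h1 := Q_full (esub G s t) (Set.range some)
      (Q_sub lstep1 lstep2 lstepc lsusp liso G s t hst hQ)
    have e : G.deleteEdges {s(s, t)} ≃g (esub G s t).induce (Set.range some) := by
      refine ⟨Equiv.ofInjective some (Option.some_injective V), ?_⟩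
      intro a b
      show (esub G s t).Adj (some a) (some b) ↔ _
      rw [es_some, SimpleGraph.deleteEdges_adj]
      simp only [Set.mem_singleton_iff, Sym2.eq_iff, not_or]
    exact Q_iso liso _ _ e.symm h1
  · have e : G.deleteEdges {s(s, t)} = G := by
      ext a b
      rw [SimpleGraph.deleteEdges_adj]
      simp only [Set.mem_singleton_iff, Sym2.eq_iff, not_or]
      constructor
      · exact fun h => h.1
      · intro h
        refine ⟨h, ?_, ?_⟩
        · rintro ⟨rfl, rfl⟩; exact hst h
        · rintro ⟨rfl, rfl⟩; exact hst h.symm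
    rw [e]
    exact hQ

theorem Q_cls {n : ℕ} {V : Type} {G : SimpleGraph V} (h : Cls n G) : Q n G := by
  classical
  induction h with
  | gor r rk h => exact Q_gor _ _ _ ⟨inferInstance, inferInstance, r, rk, h, rfl⟩
  | full G A _ ih => exact Q_full G A ih
  | del G s t _ ih => exact Q_del G s t ih
  | sub G s t hst _ ih => exact Q_sub lstep1 lstep2 lstepc lsusp liso G s t hst ih
  | susp G _ ih => exact Q_susp lstepc lsusp liso G ih
  | loc G _ ih => exact Q_loc lstep1 liso lempty G ih
  | iso G H e _ ih => exact Q_iso liso G H e.some ih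

/-- vanishing above the middle -/
theorem cls_above {n : ℕ} {V : Type} [Fintype V] [LinearOrder V] {G : SimpleGraph V} (h : Cls n G) (i : ℕ)
    (hi : n < 2 * i) : L2Van G i := by
  have h1 := (Q_cls h).2 ∅ Set.univ i (by simp) (by simp) (by rw [Finset.card_empty]; omega)
  exact liso _ _ _ _ i ⟨SimpleGraph.induceUnivIso G⟩ h1 _ _

end Pool.Agent.TH653.Sing
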