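import Pool.Agent.TH653.Sing.Cone

set_option autoImplicit false

/-!
# Closure properties of `l2`-vanishing above the middle for all full subcomplexes
(adapted from `Pool/Agent/W293/SG/ClassB.lean`, with `l2`-vanishing instead of smallness mod 3)
-/

namespace Pool.Agent.TH653.Sing

open Pool.Agent.W907.SG Pool.Agent.W907.SM

/-! ### transport -/

theorem LVmap (hi : L_ISO) {V U : Type} (G : SimpleGraph V) (H : SimpleGraph U) (B : Set U)
    (f : V → U) (hinj : Function.Injective f) (hB : ∀ u, u ∈ B ↔ ∃ v, f v = u)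
    (hadj : ∀ a b, (H.Adj (f a) (f b) ↔ G.Adj a b)) (i : ℕ) : LV G i ↔ LV (H.induce B) i := by
  have e : Nonempty (G ≃g H.induce B) := by
    refine ⟨⟨Equiv.ofBijective (fun v => ⟨f v, (hB _).mpr ⟨v, rfl⟩⟩) ⟨?_, ?_⟩, ?_⟩⟩
    · intro a b h
      exact hinj (congrArg Subtype.val h)
    · rintro ⟨u, hu⟩
      obtain ⟨v, hv⟩ := (hB u).mp hu
      exact ⟨v, Subtype.ext hv⟩
    · intro a b
      exact hadj a b
  constructor
  · exact hi V _ G _ i e
  · exact hi _ V _ G i ⟨e.some.symm⟩

theorem LVset (hi : L_ISO) {V U : Type} (G : SimpleGraph V) (H : SimpleGraph U) (A : Set V)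
    (B : Set U) (f : V → U) (hinj : Set.InjOn f A) (hB : ∀ u, u ∈ B ↔ ∃ v ∈ A, f v = u)
    (hadj : ∀ a ∈ A, ∀ b ∈ A, (H.Adj (f a) (f b) ↔ G.Adj a b)) (i : ℕ) :
    LV (G.induce A) i ↔ LV (H.induce B) i := by
  refine LVmap hi (G.induce A) H B (fun a : A => f a.1) ?_ ?_ ?_ i
  · intro a b h
    exact Subtype.ext (hinj a.2 b.2 h)
  · intro u
    rw [hB]
    constructor
    · rintro ⟨v, hv, rfl⟩
      exact ⟨⟨v, hv⟩, rfl⟩
    · rintro ⟨v, rfl⟩
      exact ⟨v.1, v.2, rfl⟩
  · intro a b
    exact hadj a.1 a.2 b.1 b.2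

theorem LVnest (hi : L_ISO) {V : Type} (G : SimpleGraph V) (A : Set V) (C : Set A) (B : Set V)
    (hB : ∀ x : V, x ∈ B ↔ ∃ hx : x ∈ A, (⟨x, hx⟩ : A) ∈ C) (i : ℕ) :
    LV ((G.induce A).induce C) i ↔ LV (G.induce B) i := by
  refine LVset hi (G.induce A) G C B (fun a => a.1) ?_ ?_ ?_ i
  · intro a _ b _ h
    exact Subtype.ext h
  · intro u
    rw [hB]
    constructor
    · rintro ⟨hx, h⟩
      exact ⟨⟨u, hx⟩, h, rfl⟩
    · rintro ⟨v, hv, rfl⟩
      exact ⟨v.2, hv⟩
  · intro a _ b _
    exact Iff.rfl

/-! ### relative versions of the closure properties -/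

theorem r1 (h1 : L_STEP1) (hi : L_ISO) {V : Type} [Finite V] (G : SimpleGraph V) (v : V) (A : Set V)
    (hv : v ∉ A) (i : ℕ) (ha : LV (G.induce A) i)
    (hb : ∀ j, i = j + 1 → LV (G.induce (A ∩ G.neighborSet v)) j) :
    LV (G.induce (insert v A)) i := by
  have hvm : v ∈ insert v A := Set.mem_insert _ _
  refine h1 _ (G.induce (insert v A)) ⟨v, hvm⟩ i ?_ ?_
  · refine (LVnest hi G (insert v A) _ A ?_ i).mpr ha
    intro x
    constructor
    · intro hx
      refine ⟨Set.mem_insert_of_mem _ hx, ?_⟩
      intro h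
      have : x = v := congrArg Subtype.val h
      exact hv (this ▸ hx)
    · rintro ⟨hx, h⟩
      rcases hx with hx | hx
      · exact absurd (Subtype.ext hx) h
      · exact hx
  · intro j hj
    refine (LVnest hi G (insert v A) _ (A ∩ G.neighborSet v) ?_ j).mpr (hb j hj)
    intro x
    constructor
    · rintro ⟨hx, hx2⟩
      exact ⟨Set.mem_insert_of_mem _ hx, hx2⟩
    · rintro ⟨hx, h⟩
      have h' : G.Adj v x := h
      rcases hx with hx | hx
      · exact absurd hx h'.ne'
      · exact ⟨hx, h'⟩

theorem rc (hc : L_STEPC) (hi : L_ISO) {V : Type} [Finite V] (G : SimpleGraph V) (v : V) (A : Set V)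
    (hv : v ∉ A) (hadj : ∀ a ∈ A, G.Adj v a) (i : ℕ) (ha : LV (G.induce A) i) :
    LV (G.induce (insert v A)) i := by
  have hvm : v ∈ insert v A := Set.mem_insert _ _
  refine hc _ (G.induce (insert v A)) ⟨v, hvm⟩ i ?_ ?_
  · rintro ⟨u, hu⟩ hne
    rcases hu with hu | hu
    · exact absurd (Subtype.ext hu) hne
    · exact hadj u hu
  · refine (LVnest hi G (insert v A) _ A ?_ i).mpr ha
    intro x
    constructor
    · intro hx
      refine ⟨Set.mem_insert_of_mem _ hx, ?_⟩
      intro h
      have : x = v := congrArg Subtype.val h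
      exact hv (this ▸ hx)
    · rintro ⟨hx, h⟩
      rcases hx with hx | hx
      · exact absurd (Subtype.ext hx) h
      · exact hx

theorem rs (hs : L_SUSP) {V : Type} [Finite V] (G : SimpleGraph V) (A : Set V) (s t : V)
    (hsA : s ∈ A) (htA : t ∈ A) (hne : s ≠ t) (hna : ¬ G.Adj s t)
    (hall : ∀ u ∈ A, u ≠ s → u ≠ t → G.Adj u s ∧ G.Adj u t) (i : ℕ) : LV (G.induce A) i := by
  refine hs _ (G.induce A) ⟨s, hsA⟩ ⟨t, htA⟩ i ?_ ?_ ?_
  · intro h
    exact hne (congrArg Subtype.val h)
  · exact hna
  · rintro ⟨u, hu⟩ h3 h4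
    exact hall u hu (fun e => h3 (Subtype.ext e)) (fun e => h4 (Subtype.ext e))

/-! ### the motive -/

/-- the motive -/
def Q (n : ℕ) {V : Type} (G : SimpleGraph V) : Prop := Finite V ∧
  ∀ (T : Finset V) (A : Set V) (i : ℕ), (∀ a ∈ T, ∀ b ∈ T, a ≠ b → G.Adj a b) →
    (∀ a ∈ A, ∀ t ∈ T, G.Adj a t) → n < 2 * i + T.card → LV (G.induce A) i

theorem Q_empty (he : L_EMPTY) : Q 0 (⊥ : SimpleGraph Empty) := by
  refine ⟨inferInstance, fun T A i _ _ hn => ?_⟩
  have hT : T = ∅ := Finset.eq_empty_of_forall_notMem fun x => x.elim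
  rw [hT] at hn
  have : IsEmpty A := ⟨fun x => x.1.elim⟩
  exact he A _ i (by simp at hn; omega)

theorem Q_iso (hi : L_ISO) {n : ℕ} {V U : Type} (G : SimpleGraph V) (H : SimpleGraph U)
    (e : G ≃g H) (hQ : Q n G) : Q n H := by
  classical
  obtain ⟨hf, hQ⟩ := hQ
  refine ⟨Finite.of_equiv V e.toEquiv, fun T A i hT hA hn => ?_⟩
  have h := hQ (T.map e.symm.toEquiv.toEmbedding) (e ⁻¹' A) i ?_ ?_ ?_
  · refine (LVset hi G H (e ⁻¹' A) A e e.injective.injOn ?_ ?_ i).mp h
    · intro u
      constructor
      · intro hu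
        exact ⟨e.symm u, by simpa using hu, by simp⟩
      · rintro ⟨v, hv, rfl⟩
        exact hv
    · intro a _ b _
      exact e.map_adj_iff
  · intro a ha b hb hab
    rw [Finset.mem_map] at ha hb
    obtain ⟨a', ha', rfl⟩ := ha
    obtain ⟨b', hb', rfl⟩ := hb
    have h1 : a' ≠ b' := fun h => hab (by rw [h])
    exact e.symm.map_adj_iff.mpr (hT a' ha' b' hb' h1)
  · intro a ha t ht
    rw [Finset.mem_map] at ht
    obtain ⟨t', ht', rfl⟩ := ht
    have h1 := hA (e a) ha t' ht'
    have h2 := e.symm.map_adj_iff.mpr h1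
    have h3 : e.symm (e a) = a := e.symm_apply_apply a
    rw [h3] at h2
    exact h2
  · rw [Finset.card_map]
    exact hn

/-! ### suspension -/

theorem Q_susp (hc : L_STEPC) (hs : L_SUSP) (hi : L_ISO) {n : ℕ} {V : Type} (G : SimpleGraph V)
    (hQ : Q n G) : Q (n + 1) (susp G) := by
  classical
  obtain ⟨hf, hQ⟩ := hQ
  refine ⟨inferInstance, fun T A i hT hA hn => ?_⟩
  set T0 : Finset V := T.preimage Sum.inl Sum.inl_injective.injOn with hT0
  have hT0m : ∀ v, v ∈ T0 ↔ Sum.inl v ∈ T := fun v => by rw [hT0, Finset.mem_preimage]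
  have hT0c : ∀ a ∈ T0, ∀ b ∈ T0, a ≠ b → G.Adj a b := by
    intro a ha b hb hab
    have := hT _ ((hT0m a).mp ha) _ ((hT0m b).mp hb) (fun h => hab (Sum.inl_injective h))
    exact this
  -- the base part
  have base : ∀ (A0 : Set V) (B : Set (V ⊕ Bool)), (∀ u, u ∈ B ↔ ∃ v ∈ A0, Sum.inl v = u) →
      (∀ a ∈ A0, Sum.inl a ∈ A) → n < 2 * i + T0.card → LV ((susp G).induce B) i := by
    intro A0 B hB hA0 hn0
    have h := hQ T0 A0 i hT0c (fun a ha t ht => hA _ (hA0 a ha) _ ((hT0m t).mp ht)) hn0
    refine (LVset hi G (susp G) A0 B Sum.inl Sum.inl_injective.injOn hB ?_ i).mp h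
    intro a _ b _
    exact Iff.rfl
  by_cases hb : ∃ b : Bool, Sum.inr b ∈ T
  · obtain ⟨b, hb⟩ := hb
    have hcard : T.card ≤ T0.card + 1 := by
      have hsub : T ⊆ insert (Sum.inr b) (T0.map ⟨Sum.inl, Sum.inl_injective⟩) := by
        intro x hx
        rw [Finset.mem_insert]
        rcases x with v | b'
        · right
          rw [Finset.mem_map]
          exact ⟨v, (hT0m v).mpr hx, rfl⟩
        · left
          by_contra hne
          exact (hT _ hx _ hb hne : False)
      calc T.card ≤ _ := Finset.card_le_card hsub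
        _ ≤ (T0.map ⟨Sum.inl, Sum.inl_injective⟩).card + 1 := Finset.card_insert_le _ _
        _ = T0.card + 1 := by rw [Finset.card_map]
    refine base {v | Sum.inl v ∈ A} A ?_ (fun a ha => ha) (by omega)
    intro u
    constructor
    · intro hu
      rcases u with v | b'
      · exact ⟨v, hu, rfl⟩
      · exact (hA _ hu _ hb : False).elim
    · rintro ⟨v, hv, rfl⟩
      exact hv
  · push Not at hb
    have hcard : T.card = T0.card := by
      have : T = T0.map ⟨Sum.inl, Sum.inl_injective⟩ := by
        ext x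
        rw [Finset.mem_map]
        constructor
        · intro hx
          rcases x with v | b'
          · exact ⟨v, (hT0m v).mpr hx, rfl⟩
          · exact absurd hx (hb b')
        · rintro ⟨v, hv, rfl⟩
          exact (hT0m v).mp hv
      rw [this, Finset.card_map]
    have hn0 : n < 2 * i + T0.card := by omega
    by_cases hbt : Sum.inr true ∈ A
    · by_cases hbf : Sum.inr false ∈ A
      · refine rs hs (susp G) A (Sum.inr true) (Sum.inr false) hbt hbf (by simp) ?_ ?_ i
        · intro h
          exact h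
        · intro u hu h1 h2
          rcases u with v | b'
          · exact ⟨trivial, trivial⟩
          · rcases b' with _ | _
            · exact absurd rfl h2
            · exact absurd rfl h1
      · have e : A = insert (Sum.inr true) (A \ {Sum.inr true}) := by
          rw [Set.insert_sdiff_singleton, Set.insert_eq_of_mem hbt]
        rw [e]
        refine rc hc hi (susp G) (Sum.inr true) (A \ {Sum.inr true}) (by simp) ?_ i ?_
        · rintro x ⟨hx, hx2⟩
          rcases x with v | b'
          · trivial
          · rcases b' with _ | _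
            · exact absurd hx hbf
            · exact absurd rfl hx2
        · refine base {v | Sum.inl v ∈ A} _ ?_ (fun a ha => ha) hn0
          intro u
          constructor
          · rintro ⟨hu, hu2⟩
            rcases u with v | b'
            · exact ⟨v, hu, rfl⟩
            · rcases b' with _ | _
              · exact absurd hu hbf
              · exact absurd rfl hu2
          · rintro ⟨v, hv, rfl⟩
            exact ⟨hv, by simp⟩
    · by_cases hbf : Sum.inr false ∈ A
      · have e : A = insert (Sum.inr false) (A \ {Sum.inr false}) := by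
          rw [Set.insert_sdiff_singleton, Set.insert_eq_of_mem hbf]
        rw [e]
        refine rc hc hi (susp G) (Sum.inr false) (A \ {Sum.inr false}) (by simp) ?_ i ?_
        · rintro x ⟨hx, hx2⟩
          rcases x with v | b'
          · trivial
          · rcases b' with _ | _
            · exact absurd rfl hx2
            · exact absurd hx hbt
        · refine base {v | Sum.inl v ∈ A} _ ?_ (fun a ha => ha) hn0
          intro u
          constructor
          · rintro ⟨hu, hu2⟩
            rcases u with v | b'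
            · exact ⟨v, hu, rfl⟩
            · rcases b' with _ | _
              · exact absurd rfl hu2
              · exact absurd hu hbt
          · rintro ⟨v, hv, rfl⟩
            exact ⟨hv, by simp⟩
      · refine base {v | Sum.inl v ∈ A} A ?_ (fun a ha => ha) hn0
        intro u
        constructor
        · intro hu
          rcases u with v | b'
          · exact ⟨v, hu, rfl⟩
          · rcases b' with _ | _
            · exact absurd hu hbf
            · exact absurd hu hbt
        · rintro ⟨v, hv, rfl⟩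
          exact hv

/-! ### edge subdivision -/

theorem es_some {V : Type} (G : SimpleGraph V) (s t a b : V) :
    (esub G s t).Adj (some a) (some b) ↔ G.Adj a b ∧ ¬ (a = s ∧ b = t) ∧ ¬ (a = t ∧ b = s) := Iff.rfl

theorem es_none {V : Type} (G : SimpleGraph V) (s t a : V) :
    (esub G s t).Adj none (some a) ↔ a = s ∨ a = t ∨ (G.Adj a s ∧ G.Adj a t) := Iff.rfl

theorem es_none' {V : Type} (G : SimpleGraph V) (s t a : V) :
    (esub G s t).Adj (some a) none ↔ a = s ∨ a = t ∨ (G.Adj a s ∧ G.Adj a t) := Iff.rfl

theorem es_nn {V : Type} (G : SimpleGraph V) (s t : V) : ¬ (esub G s t).Adj none none := fun h => h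

theorem es_comm {V : Type} (G : SimpleGraph V) (s t : V) : esub G s t = esub G t s := by
  ext x y
  rcases x with _ | a
  · rcases y with _ | b
    · exact Iff.rfl
    · rw [es_none, es_none]
      tauto
  · rcases y with _ | b
    · rw [es_none', es_none']
      tauto
    · rw [es_some, es_some]
      tauto

/-- subsets not containing both `s` and `t` -/
theorem sub0 (hi : L_ISO) {V : Type} (G : SimpleGraph V) (s t : V) (A : Set V)
    (hA : ¬ (s ∈ A ∧ t ∈ A)) (i : ℕ) (h : LV (G.induce A) i) :
    LV ((esub G s t).induce (some '' A)) i := by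
  refine (LVset hi G (esub G s t) A (some '' A) some (Option.some_injective V).injOn
    (fun u => Iff.rfl) ?_ i).mp h
  intro a ha b hb
  rw [es_some]
  constructor
  · exact fun h => h.1
  · intro h
    refine ⟨h, ?_, ?_⟩
    · rintro ⟨rfl, rfl⟩
      exact hA ⟨ha, hb⟩
    · rintro ⟨rfl, rfl⟩
      exact hA ⟨hb, ha⟩

theorem clique_insert {V : Type} [DecidableEq V] (G : SimpleGraph V) (v : V) (T : Finset V)
    (hT : ∀ a ∈ T, ∀ b ∈ T, a ≠ b → G.Adj a b) (hv : ∀ u ∈ T, G.Adj u v) :
    ∀ a ∈ insert v T, ∀ b ∈ insert v T, a ≠ b → G.Adj a b := by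
  intro a ha b hb hab
  rcases Finset.mem_insert.mp ha with h1 | h1
  · rcases Finset.mem_insert.mp hb with h2 | h2
    · exact absurd (h1.trans h2.symm) hab
    · rw [h1]
      exact (hv b h2).symm
  · rcases Finset.mem_insert.mp hb with h2 | h2
    · rw [h2]
      exact hv a h1
    · exact hT a h1 b h2 hab

/-- the clique `T ∪ {s, t}` -/
theorem LVlink {n : ℕ} {V : Type} (G : SimpleGraph V) (s t : V) (hst : G.Adj s t)
    (hQ : Q n G) (T : Finset V) (A : Set V) (j : ℕ) (hT : ∀ a ∈ T, ∀ b ∈ T, a ≠ b → G.Adj a b)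
    (hTs : ∀ u ∈ T, G.Adj u s ∧ G.Adj u t) (hA : ∀ a ∈ A, ∀ u ∈ T, G.Adj a u)
    (hA2 : ∀ a ∈ A, G.Adj a s ∧ G.Adj a t) (hn : n < 2 * j + T.card + 2) :
    LV (G.induce A) j := by
  classical
  have htT : t ∉ T := fun h => (hTs t h).2.ne rfl
  have hsT : s ∉ insert t T := by
    rw [Finset.mem_insert, not_or]
    exact ⟨hst.ne, fun h => (hTs s h).1.ne rfl⟩
  refine hQ.2 (insert s (insert t T)) A j ?_ ?_ ?_
  · refine clique_insert G s _ (clique_insert G t T hT fun u hu => (hTs u hu).2) ?_
    intro u hu
    rcases Finset.mem_insert.mp hu with h | h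
    · rw [h]
      exact hst.symm
    · exact (hTs u h).1
  · intro a ha u hu
    rcases Finset.mem_insert.mp hu with h | hu
    · rw [h]
      exact (hA2 a ha).1
    · rcases Finset.mem_insert.mp hu with h | hu
      · rw [h]
        exact (hA2 a ha).2
      · exact hA a ha u hu
  · rw [Finset.card_insert_of_notMem hsT, Finset.card_insert_of_notMem htT]
    omega

theorem subL (hc : L_STEPC) (hs : L_SUSP) (hi : L_ISO) {n : ℕ} {V : Type} [Finite V]
    (G : SimpleGraph V) (s t : V) (hst : G.Adj s t)
    (hQ : Q n G) (T : Finset V) (A : Set V) (j : ℕ) (hT : ∀ a ∈ T, ∀ b ∈ T, a ≠ b → G.Adj a b)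
    (hTs : ∀ u ∈ T, G.Adj u s ∧ G.Adj u t) (hA : ∀ a ∈ A, ∀ u ∈ T, G.Adj a u)
    (hA2 : ∀ a ∈ A, a = s ∨ a = t ∨ (G.Adj a s ∧ G.Adj a t)) (hn : n < 2 * j + T.card + 2) :
    LV ((esub G s t).induce (some '' A)) j := by
  classical
  set A0 : Set V := {a | a ∈ A ∧ a ≠ s ∧ a ≠ t} with hA0
  have hA0s : ∀ a ∈ A0, G.Adj a s ∧ G.Adj a t := by
    rintro a ⟨ha, h1, h2⟩
    rcases hA2 a ha with h | h | h
    · exact absurd h h1
    · exact absurd h h2
    · exact h
  have h0 : LV (G.induce A0) j := LVlink G s t hst hQ T A0 j hT hTs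
    (fun a ha => hA a ha.1) hA0s hn
  have h0' : LV ((esub G s t).induce (some '' A0)) j :=
    sub0 hi G s t A0 (fun h => h.1.2.1 rfl) j h0
  by_cases hsA : s ∈ A
  · by_cases htA : t ∈ A
    · refine rs hs (esub G s t) (some '' A) (some s) (some t) ⟨s, hsA, rfl⟩ ⟨t, htA, rfl⟩ ?_ ?_ ?_ j
      · intro h
        exact hst.ne (Option.some_injective V h)
      · rw [es_some]
        rintro ⟨_, h, _⟩
        exact h ⟨rfl, rfl⟩
      · rintro _ ⟨u, hu, rfl⟩ h1 h2
        have hus : u ≠ s := fun h => h1 (by rw [h])
        have hut : u ≠ t := fun h => h2 (by rw [h])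
        obtain ⟨h3, h4⟩ := hA0s u ⟨hu, hus, hut⟩
        rw [es_some, es_some]
        exact ⟨⟨h3, fun h => hus h.1, fun h => hut h.1⟩, h4, fun h => hus h.1, fun h => hut h.1⟩
    · have e : some '' A = insert (some s) (some '' A0) := by
        ext x
        constructor
        · rintro ⟨a, ha, rfl⟩
          by_cases has : a = s
          · left
            rw [has]
          · right
            exact ⟨a, ⟨ha, has, fun h => htA (h ▸ ha)⟩, rfl⟩
        · rintro (h | ⟨a, ha, rfl⟩)
          · exact ⟨s, hsA, h.symm⟩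
          · exact ⟨a, ha.1, rfl⟩
      rw [e]
      refine rc hc hi (esub G s t) (some s) (some '' A0) ?_ ?_ j h0'
      · rintro ⟨a, ha, h⟩
        exact ha.2.1 (Option.some_injective V h)
      · rintro _ ⟨a, ha, rfl⟩
        rw [es_some]
        exact ⟨(hA0s a ha).1.symm, fun h => ha.2.2 h.2, fun h => ha.2.1 h.2⟩
  · by_cases htA : t ∈ A
    · have e : some '' A = insert (some t) (some '' A0) := by
        ext x
        constructor
        · rintro ⟨a, ha, rfl⟩
          by_cases has : a = t
          · left
            rw [has]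
          · right
            exact ⟨a, ⟨ha, fun h => hsA (h ▸ ha), has⟩, rfl⟩
        · rintro (h | ⟨a, ha, rfl⟩)
          · exact ⟨t, htA, h.symm⟩
          · exact ⟨a, ha.1, rfl⟩
      rw [e]
      refine rc hc hi (esub G s t) (some t) (some '' A0) ?_ ?_ j h0'
      · rintro ⟨a, ha, h⟩
        exact ha.2.2 (Option.some_injective V h)
      · rintro _ ⟨a, ha, rfl⟩
        rw [es_some]
        exact ⟨(hA0s a ha).2.symm, fun h => ha.2.2 h.2, fun h => ha.2.1 h.2⟩
    · have e : A = A0 := by
        ext a
        exact ⟨fun ha => ⟨ha, fun h => hsA (h ▸ ha), fun h => htA (h ▸ ha)⟩, fun ha => ha.1⟩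
      rw [e]
      exact h0'

theorem sub3 (h2 : L_STEP2) (hi : L_ISO) {n : ℕ} {V : Type} [Finite V] (G : SimpleGraph V)
    (s t : V) (hst : G.Adj s t) (hQ : Q n G) (T : Finset V) (A : Set V) (i : ℕ)
    (hT : ∀ a ∈ T, ∀ b ∈ T, a ≠ b → G.Adj a b) (hA : ∀ a ∈ A, ∀ u ∈ T, G.Adj a u)
    (hn : n < 2 * i + T.card) : LV ((esub G s t).induce (some '' A)) i := by
  classical
  have h0 := hQ.2 T A i hT hA hn
  by_cases hb : s ∈ A ∧ t ∈ A
  · obtain ⟨hsA, htA⟩ := hb
    have h3 := h2 _ (G.induce A) ⟨s, hsA⟩ ⟨t, htA⟩ i hst h0 (by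
      intro j hj
      refine (LVnest hi G A _ (A ∩ {a | G.Adj a s ∧ G.Adj a t}) ?_ j).mpr ?_
      · intro x
        constructor
        · rintro ⟨hx, h3, h4⟩
          exact ⟨hx, h3.symm, h4.symm⟩
        · rintro ⟨hx, h3, h4⟩
          have h3' : G.Adj s x := h3
          have h4' : G.Adj t x := h4
          exact ⟨hx, h3'.symm, h4'.symm⟩
      · refine LVlink G s t hst hQ T _ j hT (fun u hu => ⟨(hA s hsA u hu).symm, (hA t htA u hu).symm⟩)
          (fun a ha => hA a ha.1) (fun a ha => ha.2) (by omega))
    refine (LVmap hi _ (esub G s t) (some '' A) (fun a : A => some a.1) ?_ ?_ ?_ i).mp h3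
    · intro a b h
      exact Subtype.ext (Option.some_injective V h)
    · intro u
      constructor
      · rintro ⟨a, ha, rfl⟩
        exact ⟨⟨a, ha⟩, rfl⟩
      · rintro ⟨a, rfl⟩
        exact ⟨a.1, a.2, rfl⟩
    · rintro ⟨a, ha⟩ ⟨b, hb⟩
      rw [es_some, SimpleGraph.deleteEdges_adj]
      simp only [Set.mem_singleton_iff, Sym2.eq_iff, Subtype.mk.injEq, not_or]
      constructor
      · rintro ⟨h4, h5, h6⟩
        exact ⟨h4, h5, fun h => h6 ⟨h.1, h.2⟩⟩
      · rintro ⟨h4, h5, h6⟩
        exact ⟨h4, h5, fun h => h6 ⟨h.1, h.2⟩⟩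
  · exact sub0 hi G s t A hb i h0

/-- the cases `s ∈ T'` -/
theorem subS (hi : L_ISO) {n : ℕ} {V : Type} (G : SimpleGraph V)
    (s t : V) (hst : G.Adj s t) (hQ : Q n G) (T : Finset (Option V)) (A : Set (Option V)) (i : ℕ)
    (hT : ∀ a ∈ T, ∀ b ∈ T, a ≠ b → (esub G s t).Adj a b)
    (hA : ∀ a ∈ A, ∀ u ∈ T, (esub G s t).Adj a u) (hn : n < 2 * i + T.card)
    (hsT : some s ∈ T) : LV ((esub G s t).induce A) i := by
  classical
  have htA : some t ∉ A := by
    intro h
    exact ((es_some G s t t s).mp (hA _ h _ hsT)).2.2 ⟨rfl, rfl⟩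
  have hsA : some s ∉ A := fun h => (hA _ h _ hsT).ne rfl
  have htT : some t ∉ T := by
    intro h
    exact ((es_some G s t s t).mp (hT _ hsT _ h fun e => hst.ne (Option.some_injective V e))).2.1
      ⟨rfl, rfl⟩
  set T0 : Finset V := T.eraseNone with hT0
  have hT0m : ∀ v, v ∈ T0 ↔ some v ∈ T := fun v => Finset.mem_eraseNone
  have hT0c : ∀ a ∈ T0, ∀ b ∈ T0, a ≠ b → G.Adj a b := by
    intro a ha b hb hab
    exact ((es_some G s t a b).mp (hT _ ((hT0m a).mp ha) _ ((hT0m b).mp hb)
      (fun h => hab (Option.some_injective V h)))).1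
  have hcard1 : (T.erase none).card = T0.card := by
    rw [hT0, ← Finset.map_some_eraseNone, Finset.card_map]
  by_cases hnT : none ∈ T
  · -- case (1)
    have hnA : none ∉ A := fun h => es_nn G s t (hA _ h _ hnT)
    have hcard : T.card = T0.card + 1 := by
      rw [← hcard1, Finset.card_erase_of_mem hnT]
      have := Finset.card_pos.mpr ⟨_, hnT⟩
      omega
    have e : A = some '' (some ⁻¹' A) := by
      ext x
      rcases x with _ | a
      · constructor
        · intro h
          exact absurd h hnA
        · rintro ⟨a, _, h⟩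
          exact absurd h (Option.some_ne_none a)
      · constructor
        · intro h
          exact ⟨a, h, rfl⟩
        · rintro ⟨a', h1, h2⟩
          rw [← h2]
          exact h1
    rw [e]
    refine sub0 hi G s t _ (fun h => hsA h.1) i ?_
    have hTadj : ∀ u ∈ T0, G.Adj u t := by
      intro u hu
      have h1 := (es_none' G s t u).mp (hT _ ((hT0m u).mp hu) _ hnT (Option.some_ne_none u))
      rcases h1 with h | h | h
      · rw [h]
        exact hst
      · exact absurd ((hT0m u).mp hu) (h ▸ htT)
      · exact h.2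
    have htT0 : t ∉ T0 := fun h => htT ((hT0m t).mp h)
    refine hQ.2 (insert t T0) _ i (clique_insert G t T0 hT0c hTadj) ?_ ?_
    · intro a ha u hu
      have ha' : some a ∈ A := ha
      rcases Finset.mem_insert.mp hu with h | hu
      · have h1 := (es_none' G s t a).mp (hA _ ha' _ hnT)
        rcases h1 with h1 | h1 | h1
        · exact absurd ha' (h1 ▸ hsA)
        · exact absurd ha' (h1 ▸ htA)
        · rw [h]
          exact h1.2
      · exact ((es_some G s t a u).mp (hA _ ha' _ ((hT0m u).mp hu))).1
    · rw [Finset.card_insert_of_notMem htT0]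
      omega
  · have hcard : T.card = T0.card := by
      rw [← hcard1, Finset.erase_eq_of_notMem hnT]
    have hn0 : n < 2 * i + T0.card := by omega
    by_cases hnA : none ∈ A
    · -- case (4)
      have hTadj : ∀ u ∈ T0, G.Adj t u := by
        intro u hu
        have h1 := (es_none G s t u).mp (hA _ hnA _ ((hT0m u).mp hu))
        rcases h1 with h | h | h
        · rw [h]
          exact hst.symm
        · exact absurd ((hT0m u).mp hu) (h ▸ htT)
        · exact h.2.symm
      have h := hQ.2 T0 (insert t (some ⁻¹' A)) i hT0c (by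
        intro a ha u hu
        rcases ha with h | h
        · rw [h]
          exact hTadj u hu
        · exact ((es_some G s t a u).mp (hA _ h _ ((hT0m u).mp hu))).1) hn0
      refine (LVset hi G (esub G s t) (insert t (some ⁻¹' A)) A
        (fun a => if a = t then none else some a) ?_ ?_ ?_ i).mp h
      · intro a _ b _ hab
        simp only at hab
        by_cases h1 : a = t
        · by_cases h2 : b = t
          · rw [h1, h2]
          · rw [if_pos h1, if_neg h2] at hab
            exact absurd hab.symm (Option.some_ne_none b)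
        · by_cases h2 : b = t
          · rw [if_neg h1, if_pos h2] at hab
            exact absurd hab (Option.some_ne_none a)
          · rw [if_neg h1, if_neg h2] at hab
            exact Option.some_injective V hab
      · intro x
        constructor
        · intro hx
          rcases x with _ | a
          · exact ⟨t, Set.mem_insert _ _, if_pos rfl⟩
          · exact ⟨a, Set.mem_insert_of_mem _ hx, if_neg fun (h : a = t) => htA (h ▸ hx)⟩
        · rintro ⟨a, ha, rfl⟩
          by_cases h1 : a = t
          · rw [if_pos h1]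
            exact hnA
          · rw [if_neg h1]
            rcases ha with h2 | h2
            · exact absurd h2 h1
            · exact h2
      · have hkey : ∀ a ∈ (some ⁻¹' A : Set V), a ≠ t ∧ a ≠ s ∧ G.Adj a s := by
          intro a ha
          have ha' : some a ∈ A := ha
          exact ⟨fun h => htA (h ▸ ha'), fun h => hsA (h ▸ ha'),
            ((es_some G s t a s).mp (hA _ ha' _ hsT)).1⟩
        intro a ha b hb
        by_cases h1 : a = t
        · by_cases h2 : b = t
          · rw [if_pos h1, if_pos h2, h1, h2]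
            constructor
            · intro h
              exact absurd h (es_nn G s t)
            · intro h
              exact absurd rfl h.ne
          · rw [if_pos h1, if_neg h2, es_none, h1]
            have hb' : b ∈ (some ⁻¹' A : Set V) := by
              rcases hb with h3 | h3
              · exact absurd h3 h2
              · exact h3
            obtain ⟨_, h5, h6⟩ := hkey b hb'
            constructor
            · rintro (h | h | h)
              · exact absurd h h5
              · exact absurd h h2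
              · exact h.2.symm
            · intro h
              exact Or.inr (Or.inr ⟨h6, h.symm⟩)
        · have ha' : a ∈ (some ⁻¹' A : Set V) := by
            rcases ha with h3 | h3
            · exact absurd h3 h1
            · exact h3
          obtain ⟨_, h5, h6⟩ := hkey a ha'
          by_cases h2 : b = t
          · rw [if_neg h1, if_pos h2, es_none', h2]
            constructor
            · rintro (h | h | h)
              · exact absurd h h5
              · exact absurd h h1
              · exact h.2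
            · intro h
              exact Or.inr (Or.inr ⟨h6, h⟩)
          · rw [if_neg h1, if_neg h2, es_some]
            constructor
            · exact fun h => h.1
            · exact fun h => ⟨h, fun e => h2 e.2, fun e => h1 e.1⟩
    · -- case (3) with `s ∈ T`
      have e : A = some '' (some ⁻¹' A) := by
        ext x
        rcases x with _ | a
        · constructor
          · intro h
            exact absurd h hnA
          · rintro ⟨a, _, h⟩
            exact absurd h (Option.some_ne_none a)
        · constructor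
          · intro h
            exact ⟨a, h, rfl⟩
          · rintro ⟨a', h1, h2⟩
            rw [← h2]
            exact h1
      rw [e]
      refine sub0 hi G s t _ (fun h => hsA h.1) i ?_
      refine hQ.2 T0 _ i hT0c ?_ hn0
      intro a ha u hu
      exact ((es_some G s t a u).mp (hA _ ha _ ((hT0m u).mp hu))).1

theorem Q_sub (h1 : L_STEP1) (h2 : L_STEP2) (hc : L_STEPC) (hs : L_SUSP) (hi : L_ISO) {n : ℕ}
    {V : Type} (G : SimpleGraph V) (s t : V) (hst : G.Adj s t) (hQ : Q n G) :
    Q n (esub G s t) := by
  classical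
  have hf := hQ.1
  refine ⟨inferInstance, fun T A i hT hA hn => ?_⟩
  by_cases hsT : some s ∈ T
  · exact subS hi G s t hst hQ T A i hT hA hn hsT
  by_cases htT : some t ∈ T
  · rw [es_comm G s t] at hT hA ⊢
    exact subS hi G t s hst.symm hQ T A i hT hA hn htT
  set T0 : Finset V := T.eraseNone with hT0
  have hT0m : ∀ v, v ∈ T0 ↔ some v ∈ T := fun v => Finset.mem_eraseNone
  have hT0c : ∀ a ∈ T0, ∀ b ∈ T0, a ≠ b → G.Adj a b := by
    intro a ha b hb hab
    exact ((es_some G s t a b).mp (hT _ ((hT0m a).mp ha) _ ((hT0m b).mp hb)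
      (fun h => hab (Option.some_injective V h)))).1
  have hcard1 : (T.erase none).card = T0.card := by
    rw [hT0, ← Finset.map_some_eraseNone, Finset.card_map]
  have hA0 : ∀ a ∈ (some ⁻¹' A : Set V), ∀ u ∈ T0, G.Adj a u := by
    intro a ha u hu
    exact ((es_some G s t a u).mp (hA _ ha _ ((hT0m u).mp hu))).1
  have hnone : ∀ u ∈ T0, (esub G s t).Adj none (some u) → G.Adj u s ∧ G.Adj u t := by
    intro u hu h
    rcases (es_none G s t u).mp h with h | h | h
    · exact absurd ((hT0m u).mp hu) (h ▸ hsT)
    · exact absurd ((hT0m u).mp hu) (h ▸ htT)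
    · exact h
  have heq : none ∉ A → A = some '' (some ⁻¹' A) := by
    intro hnA
    ext x
    rcases x with _ | a
    · constructor
      · intro h
        exact absurd h hnA
      · rintro ⟨a, _, h⟩
        exact absurd h (Option.some_ne_none a)
    · constructor
      · intro h
        exact ⟨a, h, rfl⟩
      · rintro ⟨a', h1, h2⟩
        rw [← h2]
        exact h1
  by_cases hnT : none ∈ T
  · -- case (2)
    have hnA : none ∉ A := fun h => es_nn G s t (hA _ h _ hnT)
    have hcard : T.card = T0.card + 1 := by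
      rw [← hcard1, Finset.card_erase_of_mem hnT]
      have := Finset.card_pos.mpr ⟨_, hnT⟩
      omega
    rw [heq hnA]
    refine subL hc hs hi G s t hst hQ T0 _ i hT0c ?_ hA0 ?_ (by omega)
    · intro u hu
      exact hnone u hu (hT _ hnT _ ((hT0m u).mp hu) (Option.some_ne_none u).symm)
    · intro a ha
      exact (es_none' G s t a).mp (hA _ ha _ hnT)
  · have hcard : T.card = T0.card := by
      rw [← hcard1, Finset.erase_eq_of_notMem hnT]
    have hn0 : n < 2 * i + T0.card := by omega
    by_cases hnA : none ∈ A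
    · -- case (5)
      have e : A = insert none (some '' (some ⁻¹' A)) := by
        ext x
        rcases x with _ | a
        · exact ⟨fun _ => Set.mem_insert _ _, fun _ => hnA⟩
        · constructor
          · intro h
            exact Set.mem_insert_of_mem _ ⟨a, h, rfl⟩
          · rintro (h | ⟨a', h1, h2⟩)
            · exact absurd h (Option.some_ne_none a)
            · rw [← h2]
              exact h1
      rw [e]
      refine r1 h1 hi (esub G s t) none (some '' (some ⁻¹' A)) ?_ i ?_ ?_
      · rintro ⟨a, _, h⟩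
        exact absurd h (Option.some_ne_none a)
      · exact sub3 h2 hi G s t hst hQ T0 _ i hT0c hA0 hn0
      · intro j hj
        have e2 : (some '' (some ⁻¹' A)) ∩ (esub G s t).neighborSet none =
            some '' {a | a ∈ (some ⁻¹' A : Set V) ∧ (a = s ∨ a = t ∨ (G.Adj a s ∧ G.Adj a t))} := by
          ext x
          constructor
          · rintro ⟨⟨a, ha, rfl⟩, h⟩
            exact ⟨a, ⟨ha, h⟩, rfl⟩
          · rintro ⟨a, ⟨ha, h⟩, rfl⟩
            exact ⟨⟨a, ha, rfl⟩, h⟩
        rw [e2]
        refine subL hc hs hi G s t hst hQ T0 _ j hT0c ?_ (fun a ha => hA0 a ha.1)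
          (fun a ha => ha.2) (by omega)
        intro u hu
        exact hnone u hu (hA _ hnA _ ((hT0m u).mp hu))
    · rw [heq hnA]
      exact sub3 h2 hi G s t hst hQ T0 _ i hT0c hA0 hn0

theorem Q_loc (h1 : L_STEP1) (hi : L_ISO) (he : L_EMPTY) {m : ℕ} {V : Type} [Finite V]
    (G : SimpleGraph V) (hQ : ∀ v, Q (2 * m + 1) (G.induce (G.neighborSet v))) :
    Q (2 * m + 2) G := by
  classical
  refine ⟨inferInstance, fun T A i hT hA hn => ?_⟩
  -- the link of a vertex
  have link : ∀ (v : V) (T0 : Finset V) (B : Set V) (j : ℕ), (∀ a ∈ T0, G.Adj v a) →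
      (∀ a ∈ T0, ∀ b ∈ T0, a ≠ b → G.Adj a b) → (∀ a ∈ B, G.Adj v a) →
      (∀ a ∈ B, ∀ t ∈ T0, G.Adj a t) → 2 * m + 1 < 2 * j + T0.card → LV (G.induce B) j := by
    intro v T0 B j hv1 hc hv2 hB hn
    set T1 : Finset (G.neighborSet v) := T0.preimage Subtype.val Subtype.val_injective.injOn with hT1
    have hT1m : ∀ x, x ∈ T1 ↔ x.1 ∈ T0 := fun x => by rw [hT1, Finset.mem_preimage]
    have hcard : T1.card = T0.card := by
      have : T1.map ⟨Subtype.val, Subtype.val_injective⟩ = T0 := by
        ext x
        rw [Finset.mem_map]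
        constructor
        · rintro ⟨y, hy, rfl⟩
          exact (hT1m y).mp hy
        · intro hx
          exact ⟨⟨x, hv1 x hx⟩, (hT1m _).mpr hx, rfl⟩
      rw [← this, Finset.card_map]
    have h := (hQ v).2 T1 {x | x.1 ∈ B} j (by
      intro a ha b hb hab
      exact hc a.1 ((hT1m a).mp ha) b.1 ((hT1m b).mp hb) (fun e => hab (Subtype.ext e))) (by
      intro a ha t ht
      exact hB a.1 ha t.1 ((hT1m t).mp ht)) (by omega)
    refine (LVnest hi G (G.neighborSet v) _ B ?_ j).mp h
    intro x
    constructor
    · intro hx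
      exact ⟨hv2 x hx, hx⟩
    · rintro ⟨_, hx⟩
      exact hx
  rcases T.eq_empty_or_nonempty with hTe | ⟨v, hv⟩
  · rw [hTe, Finset.card_empty, add_zero] at hn
    have key : ∀ B : Set V, B.Finite → LV (G.induce B) i := by
      intro B hB
      induction B, hB using Set.Finite.induction_on with
      | empty =>
        have : IsEmpty (∅ : Set V) := by infer_instance
        exact he _ _ i (by omega)
      | @insert v B hv _ ih =>
        refine r1 h1 hi G v B hv i ih ?_
        intro j hj
        refine link v ∅ _ j (by simp) (by simp) (fun a ha => ha.2) (by simp) ?_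
        rw [Finset.card_empty]
        omega
    exact key A (Set.toFinite A)
  · refine link v (T.erase v) A i ?_ ?_ ?_ ?_ ?_
    · intro a ha
      rw [Finset.mem_erase] at ha
      exact hT v hv a ha.2 (Ne.symm ha.1)
    · intro a ha b hb hab
      exact hT a (Finset.mem_of_mem_erase ha) b (Finset.mem_of_mem_erase hb) hab
    · intro a ha
      exact (hA a ha v hv).symm
    · intro a ha t ht
      exact hA a ha t (Finset.mem_of_mem_erase ht)
    · rw [Finset.card_erase_of_mem hv]
      have := Finset.card_pos.mpr ⟨v, hv⟩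
      omega

end Pool.Agent.TH653.Sing
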