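import Pool.Agent.W907.SG.All
import Pool.Agent.W907.SM.LV

set_option autoImplicit false

/-!
# Coning and `l2`-vanishing
-/

namespace Pool.Agent.TH653.Sing

open Pool.Agent.W907.SG Pool.Agent.W907.SM Pool.Agent.W338.SG

/-- coning off a flag complex preserves `l2`-vanishing -/
theorem l2cone {V : Type} [Fintype V] [LinearOrder V] (G : SimpleGraph V) (s : V)
    [Fintype ↥({s}ᶜ : Set V)] (i : ℕ) (hs : ∀ u, u ≠ s → G.Adj s u)
    (h1 : L2Van (G.induce {s}ᶜ) i) : L2Van G i := by
  classical
  refine large V G i fun N E hE => ?_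
  have : Fact (Nat.Prime 3) := ⟨Nat.prime_three⟩
  obtain ⟨E1, hE1, hX1⟩ := small_restrict small tr G {s}ᶜ i h1 N
  obtain ⟨Y, _, _, P, ev, e1, e2, e3, e4⟩ := nilp 3 V G (E ∪ E1) (by decide) (by
    rw [Finset.mem_union]; exact fun h => h.elim hE hE1)
  refine ⟨Y, inferInstance, inferInstance, P.a, ev, P.inv, P.comm, e1, e2, e3,
    fun g hg => e4 g (Finset.mem_union_left _ hg), ?_⟩
  have b1 := cone V ℝ (Y → ℝ) G (pull ℝ P.a) {s}ᶜ s (by norm_num) (by simp)
    (fun u hu => hs u (by simpa using hu))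
    (fun m => by
      funext x
      rw [pull_apply, pull_apply, P.inv])
    (fun u hu m => by
      have hu' : G.Adj s u := hs u (by simpa using hu)
      funext x
      rw [pull_apply, pull_apply, pull_apply, pull_apply, P.comm s u hu']) i
  rw [ins_compl] at b1
  exact (Nat.mul_le_mul_left N b1).trans (hX1 Y P.a ev P.inv P.comm e1 e2 e3
    (fun g hg => e4 g (Finset.mem_union_right _ hg)))

/-- coning, for all instances -/
def L_STEPC : Prop := ∀ (V : Type) [Finite V] (G : SimpleGraph V) (s : V) (i : ℕ),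
    (∀ u, u ≠ s → G.Adj s u) → LV (G.induce {s}ᶜ) i → LV G i

theorem lstepc : L_STEPC := by
  classical
  intro V _ G s i h1 h2 _ _
  exact l2cone G s i h1 (h2 _ _)

end Pool.Agent.TH653.Sing
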