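import Pool.Agent.TH653.Sing.ClassL
import Pool.Agent.W907.SM.Final

set_option autoImplicit false

/-!
# Vanishing above the middle for full subcomplexes of links in Gorenstein* posets
-/

namespace Pool.Agent.TH653.Sing

open Pool.Agent.W907.SG Pool.Agent.W907.SM

theorem gor_links :
    ∀ (k n : ℕ) (V : Type) [Fintype V] [LinearOrder V] (r : V → V → Prop) (rk : V → Fin n), GorStar n r rk →
      ∀ T : Finset V, T.card = k → (Pool.Agent.W907.SM.cmp r).IsClique (T : Set V) → ∀ A : Set V,
        (∀ a ∈ A, ∀ t ∈ T, (Pool.Agent.W907.SM.cmp r).Adj a t) → ∀ i, n < 2 * i + T.card →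
        LV ((Pool.Agent.W907.SM.cmp r).induce A) i := by
  classical
  intro k
  induction k with
  | zero =>
    intro n V _ _ r rk hG T hT _ A _ i hi
    rw [Finset.card_eq_zero] at hT
    subst hT
    rw [Finset.card_empty, add_zero] at hi
    exact lv_of (aboveGor n V r rk hG A i hi)
  | succ k ih =>
    intro n V _ _ r rk hG T hT hc A hA i hi
    obtain ⟨v, hv⟩ : T.Nonempty := by
      rw [← Finset.card_pos]; omega
    have hn : 0 < n := (rk v).pos
    obtain ⟨m, rfl⟩ : ∃ m, n = m + 1 := ⟨n - 1, by omega⟩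
    have hcard : (T.erase v).card = k := by rw [Finset.card_erase_of_mem hv]; omega
    have hadjv : ∀ t ∈ T.erase v, t ∈ (Pool.Agent.W907.SM.cmp r).neighborSet v := by
      intro t ht
      rw [Finset.mem_erase] at ht
      exact hc hv ht.2 (Ne.symm ht.1)
    have hrk : ∀ u : ↥((Pool.Agent.W907.SM.cmp r).neighborSet v), (if r u.1 v then (rk u.1 : ℕ) else (rk u.1 : ℕ) - 1) < m := by
      intro u
      split_ifs with h
      · have h1 : (rk u.1 : ℕ) < (rk v : ℕ) := hG.rk_lt _ _ h
        have h2 := (rk v).2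
        omega
      · have h1 : (Pool.Agent.W907.SM.cmp r).Adj v u.1 := u.2
        rw [adj_cmp] at h1
        have h2 : r v u.1 := by tauto
        have h3 : (rk v : ℕ) < (rk u.1 : ℕ) := hG.rk_lt _ _ h2
        have h4 := (rk u.1).2
        omega
    have hG' := lkg (m + 1) V r rk hG v m (fun u => ⟨if r u.1 v then (rk u.1 : ℕ) else (rk u.1 : ℕ) - 1, hrk u⟩) rfl
      (fun u hu => by simp [hu])
      (fun u hu => by
        have h1 : ¬ r u.1 v := by
          intro h
          have h2 := hG.rk_lt _ _ h
          have h3 := hG.rk_lt _ _ hu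
          exact lt_asymm h2 h3
        have h3 : (rk v : ℕ) < (rk u.1 : ℕ) := hG.rk_lt _ _ hu
        simp only [h1, if_false]
        omega)
    have hcard2 : ((T.erase v).subtype (fun x => x ∈ (Pool.Agent.W907.SM.cmp r).neighborSet v)).card = k := by
      rw [Finset.card_subtype, Finset.filter_true_of_mem hadjv, hcard]
    have h := ih m ↥((Pool.Agent.W907.SM.cmp r).neighborSet v) _ _ hG' ((T.erase v).subtype (fun x => x ∈ (Pool.Agent.W907.SM.cmp r).neighborSet v))
      hcard2 ?_ {x | x.1 ∈ A} ?_ i (by rw [hcard2]; omega)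
    · refine Clo.sp_iso liso Subtype.val i ?_ ?_ ?_ ?_ h
      · intro a ha
        exact ha
      · intro a _ b _ hab
        exact Subtype.ext hab
      · intro b hb
        exact ⟨⟨b, (hA b hb v hv).symm⟩, hb, rfl⟩
      · intro a _ b _
        rw [cmp_induce]
        rfl
    · intro a ha b hb hab
      rw [cmp_induce]
      rw [Finset.mem_coe, Finset.mem_subtype, Finset.mem_erase] at ha hb
      exact hc ha.2 hb.2 (fun e => hab (Subtype.ext e))
    · intro a ha t ht
      rw [cmp_induce]
      rw [Finset.mem_subtype, Finset.mem_erase] at ht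
      exact hA a.1 ha t.1 ht.2

theorem Q_gor (n : ℕ) (V : Type) (G : SimpleGraph V) (h : GorBase n G) : Q n G := by
  classical
  obtain ⟨_, _, r, rk, hG, rfl⟩ := h
  refine ⟨inferInstance, fun T A i hT hA hi => ?_⟩
  exact gor_links T.card n V r rk hG T rfl (fun a ha b hb hab => hT a ha b hb hab) A hA i hi

end Pool.Agent.TH653.Sing
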